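import Pool.Agent.H49.FOS.S1

/-!
# FOS: the lowest level of the expansion (row LEV)
-/

set_option autoImplicit false

namespace Pool.FOS

open MvPolynomial

theorem sg_fa (hS : SGFStmt) (p N : ℕ) (β : Fin p →₀ ℕ) :
    sg p N (fa p N β) = monomial β 1 := by
  rw [fa, map_prod, monomial_eq]
  simp only [map_pow, (hS p N).1, map_one, one_mul]
  rw [Finsupp.prod_fintype _ _ (by simp)]

theorem t_LEV (hS : SGFStmt) : LEVStmt := by
  intro p N r T c h α hα hr
  rw [map_sum, coeff_sum]
  rw [Finset.sum_eq_single α]
  · rw [map_mul, sg_fa hS, coeff_monomial_mul']
    simp [(hS p N).2.1]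
  · intro β hβ hne
    rw [map_mul, sg_fa hS, coeff_monomial_mul']
    split_ifs with hle
    · have hdeg : β.degree < r := by
        rcases Nat.lt_or_ge β.degree r with h1 | h1
        · exact h1
        · exfalso
          apply hne
          have h3 : α = β + (α - β) := (add_tsub_cancel_of_le hle).symm
          have h4 : α.degree = β.degree + (α - β).degree := by
            conv_lhs => rw [h3]
            exact map_add _ _ _
          have h5 : (α - β).degree = 0 := by omega
          have h6 : α - β = 0 := (Finsupp.degree_eq_zero_iff _).1 h5
          rw [h6, add_zero] at h3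
          exact h3.symm
      rw [h β hβ hdeg]
      simp
    · rfl
  · intro h1
    exact absurd hα h1

end Pool.FOS
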