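import Pool.Agent.H49.FOS.S1

/-!
# FOS: multiplicity at a point of the curve (row ORD)
-/

set_option autoImplicit false

namespace Pool.FOS

open MvPolynomial

theorem dvd_coeff_zero_of_mem (hS : SGFStmt) (p N : ℕ) (t : ℂ)
    (D : MvPolynomial (Fin (p + 1)) ℂ) (hD : D ∈ mI (pt p N t)) :
    (Polynomial.X - Polynomial.C t) ∣ coeff 0 (sg p N D) := by
  rw [Polynomial.dvd_iff_isRoot, Polynomial.IsRoot.def, (hS p N).2.2]
  have hle : mI (pt p N t) ≤ RingHom.ker (MvPolynomial.eval (pt p N t)) := by
    rw [mI, Ideal.span_le]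
    rintro _ ⟨i, rfl⟩
    simp [RingHom.mem_ker]
  exact (RingHom.mem_ker).1 (hle hD)

theorem t_ORD (hS : SGFStmt) : ORDStmt := by
  intro p N m t
  induction m with
  | zero => intro A _ α; simp
  | succ m ih =>
    intro A hA
    rw [pow_succ] at hA
    refine Submodule.mul_induction_on hA ?_ ?_
    · intro B hB D hD α
      rw [map_mul, coeff_mul]
      apply Finset.dvd_sum
      rintro ⟨β, γ⟩ hβγ
      rw [Finset.HasAntidiagonal.mem_antidiagonal] at hβγ
      have h1 := ih B hB β
      simp only at hβγ ⊢
      have hdeg : α.degree = β.degree + γ.degree := by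
        rw [← hβγ]; exact map_add _ _ _
      by_cases hγ : γ = 0
      · subst hγ
        have h2 := dvd_coeff_zero_of_mem hS p N t D hD
        have h3 : (Polynomial.X - Polynomial.C t) ^ (m - β.degree + 1) ∣
            coeff β (sg p N B) * coeff 0 (sg p N D) := by
          rw [pow_succ]
          exact mul_dvd_mul h1 h2
        refine dvd_trans (pow_dvd_pow _ ?_) h3
        have : (0 : Fin p →₀ ℕ).degree = 0 := by simp
        omega
      · have h4 : γ.degree ≠ 0 := by
          intro h; exact hγ ((Finsupp.degree_eq_zero_iff γ).1 h)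
        refine dvd_trans (pow_dvd_pow _ ?_) (dvd_mul_of_dvd_left h1 _)
        omega
    · intro B D hB hD α
      rw [map_add, coeff_add]
      exact dvd_add (hB α) (hD α)

end Pool.FOS
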