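import Pool.Agent.H49.FOS.S1

/-!
# FOS: values of the change of coordinates (row SGF)
-/

set_option autoImplicit false

namespace Pool.FOS

open MvPolynomial

theorem sx_zero (p N : ℕ) : sx p N 0 = C Polynomial.X := by
  simp [sx]

theorem sx_succ (p N : ℕ) (i : Fin p) : sx p N i.succ = sx p N i.castSucc ^ N + X i := by
  simp [sx]

theorem constantCoeff_sx (p N : ℕ) (i : Fin (p + 1)) :
    constantCoeff (sx p N i) = (Polynomial.X : Polynomial ℂ) ^ N ^ (i : ℕ) := by
  induction i using Fin.induction with
  | zero => simp [sx_zero]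
  | succ i ih =>
    rw [sx_succ, map_add, map_pow, ih]
    simp [pow_succ, pow_mul]

theorem t_SGF : SGFStmt := by
  intro p N
  have h2 : ∀ A : MvPolynomial (Fin (p + 1)) ℂ, coeff 0 (sg p N A) = rs p N A := by
    intro A
    have hφ : (constantCoeff : MvPolynomial (Fin p) (Polynomial ℂ) →+* Polynomial ℂ).comp
        (sg p N : MvPolynomial (Fin (p + 1)) ℂ →+* MvPolynomial (Fin p) (Polynomial ℂ)) =
        (rs p N : MvPolynomial (Fin (p + 1)) ℂ →+* Polynomial ℂ) := by
      apply MvPolynomial.ringHom_ext
      · intro r
        simp [sg, rs, MvPolynomial.algebraMap_eq, IsScalarTower.algebraMap_apply ℂ (Polynomial ℂ)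
          (MvPolynomial (Fin p) (Polynomial ℂ))]
      · intro i
        simp [sg, rs, constantCoeff_sx]
    have := RingHom.congr_fun hφ A
    simpa [constantCoeff_eq] using this
  refine ⟨?_, h2, ?_⟩
  · intro i
    simp only [ff, map_sub, map_pow, sg, aeval_X]
    rw [sx_succ]
    ring
  · intro t A
    rw [h2]
    have hφ : (Polynomial.evalRingHom t).comp
        (rs p N : MvPolynomial (Fin (p + 1)) ℂ →+* Polynomial ℂ) =
        (MvPolynomial.eval (pt p N t)) := by
      apply MvPolynomial.ringHom_ext
      · intro r
        simp [rs]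
      · intro i
        simp [rs, pt]
    have := RingHom.congr_fun hφ A
    simpa using this

end Pool.FOS
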